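import Pool.Agent.L0h45.LR.Stm
import Pool.Agent.N50.PQ.Box

/-!
# Project LR: BOXL
-/

set_option autoImplicit false
set_option linter.all false

open Finset
open scoped Classical

namespace Pool.Agent.L0h56.LR

open Pool.Agent.L0h45.LR
open Pool.Agent.N874.PP (Tup chA chB gq tau Two)
open Pool.Agent.N922.PQ
open Pool.Agent.N50.PQ

lemma not_both {Q sQ : ℤ} (hQ : IsPr Q) (hQ8 : Q % 8 = 1) (hs : ∀ z : ℤ, ¬ Q ∣ z ^ 2 + sQ) {B : Tup ℤ}
    (ha : Q ∣ chA B - sQ) (hb : Q ∣ chB B) (hx : Q ∣ B.x) (hy : Q ∣ B.y) : False := by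
  have h1 : Q ∣ 2 * B.c ^ 3 := by
    have e : 2 * B.c ^ 3 = chB B - B.y * (2 * B.c * B.z - B.w * B.y) + B.x * (B.z ^ 2 + 2 * B.c * B.w) := by
      unfold chB
      ring
    rw [e]
    exact dvd_add (dvd_sub hb (hy.mul_right _)) (hx.mul_right _)
  have h2 : ¬ Q ∣ 2 := by
    intro h
    have := Int.le_of_dvd (by norm_num) h
    have h3 := hQ.1
    have h4 : Q = 1 := by omega
    have h5 := hQ.2.not_unit
    rw [h4] at h5
    exact h5 isUnit_one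
  have h3 : Q ∣ B.c := hQ.2.dvd_of_dvd_pow ((hQ.2.dvd_or_dvd h1).resolve_left h2)
  apply hs 0
  have e : (0 : ℤ) ^ 2 + sQ = -(chA B - sQ) - 3 * B.c ^ 2 - 2 * B.y * B.z - B.x * B.w := by
    unfold chA
    ring
  rw [e]
  refine dvd_sub (dvd_sub (dvd_sub (dvd_neg.2 ha) ?_) ?_) (hx.mul_right _)
  · exact (dvd_pow h3 two_ne_zero).mul_left _
  · rw [mul_assoc]
    exact (hy.mul_right _).mul_left _

lemma dvd_of_all {S : Finset ℤ} (hS : ∀ Q ∈ S, IsPr Q) {f : ℤ} (h : ∀ Q ∈ S, Q ∣ f) : (∏ Q ∈ S, Q) ∣ f := by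
  apply Finset.prod_dvd_of_coprime
  · intro Q hQ Q' hQ' hne
    have h1 := pr_nat (hS Q hQ)
    have h2 := pr_nat (hS Q' hQ')
    show IsCoprime Q Q'
    rw [← pr_cast (hS Q hQ), ← pr_cast (hS Q' hQ'), Nat.isCoprime_iff_coprime,
      Nat.coprime_primes h1 h2]
    intro he
    apply hne
    rw [← pr_cast (hS Q hQ), ← pr_cast (hS Q' hQ'), he]
  · exact h

theorem t_BOXL (hC : S_CLS) : S_BOXL := by
  obtain ⟨K₀, hK₀, hC⟩ := hC
  intro κ
  refine ⟨(⌈K₀⌉₊ + 1) * κ ^ 3, fun a S s hS ha T hT => ?_⟩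
  set M : ℕ := ∏ Q ∈ S, Q.natAbs with hMdef
  have hMz : (M : ℤ) = ∏ Q ∈ S, Q := by
    rw [hMdef]
    push_cast
    exact prod_congr rfl fun Q hQ => abs_of_pos (hS Q hQ).1.1
  have hM0 : 0 < M := prod_pos fun Q hQ => Int.natAbs_pos.2 (hS Q hQ).1.1.ne'
  have hMr : (0 : ℝ) < M := by exact_mod_cast hM0
  have hModd : Odd M := by
    rw [hMdef]
    apply Finset.prod_induction _ (fun n : ℕ => Odd n) (fun a b ha hb => ha.mul hb) odd_one
    intro Q hQ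
    have h1 := (hS Q hQ).2.1
    have h2 := (hS Q hQ).1.1
    rw [Nat.odd_iff]
    omega
  obtain ⟨L₀, hL₀⟩ := hC M T a (1 / (M : ℝ) ^ 4) hM0 hModd hT (by positivity)
  refine ⟨⌈L₀⌉₊ + 1, fun X hX => ?_⟩
  have hX1 : 1 ≤ X := by omega
  obtain ⟨K1, hK1⟩ := box0 κ
  have hfin0 := (hK1 S s X T hT hX1).1
  have hfin : {B : Tup ℤ | Xset κ X T S s B ∧ chA B = a}.Finite := hfin0.subset fun B hB => hB.1
  refine ⟨hfin, ?_⟩
  rcases Nat.eq_zero_or_pos κ with hκ | hκ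
  · have he : {B : Tup ℤ | Xset κ X T S s B ∧ chA B = a} = ∅ := by
      rw [Set.eq_empty_iff_forall_notMem]
      rintro B ⟨hB, _⟩
      have h1 := hB.box.1
      rw [hκ] at h1
      have h2 : 1 ≤ |B.x| := Int.one_le_abs hB.nz
      have h3 : (1 : ℤ) ≤ T := by exact_mod_cast hT
      have h4 : (1 : ℤ) ≤ (T : ℤ) ^ 2 := one_le_pow₀ h3
      simp only [Nat.cast_zero, zero_mul] at h1
      nlinarith
    rw [he, Set.ncard_empty, hκ]
    simp
  set L : ℝ := (κ : ℝ) * X with hL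
  have hXr : (L₀ : ℝ) ≤ X := (Nat.le_ceil _).trans (by exact_mod_cast (by omega : ⌈L₀⌉₊ ≤ X))
  have hX1r : (1 : ℝ) ≤ X := by exact_mod_cast hX1
  have hκr : (1 : ℝ) ≤ κ := by exact_mod_cast hκ
  have hLL : L₀ ≤ L := by rw [hL]; nlinarith
  set F : Finset (Tup ℤ) := hfin.toFinset with hF
  have hFmem : ∀ B, B ∈ F ↔ Xset κ X T S s B ∧ chA B = a := by
    intro B
    rw [hF, Set.Finite.mem_toFinset, Set.mem_setOf_eq]
  let f : Tup ℤ → (∀ Q : {Q // Q ∈ S}, Tup (ZMod Q.1.natAbs)) := fun B Q => tmap (rd Q.1) B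
  obtain ⟨n, hn⟩ : ∃ n : ℕ, n = ⌊(K₀ / (M : ℝ) ^ 4 + 1 / (M : ℝ) ^ 4) * L ^ 3⌋₊ := ⟨_, rfl⟩
  have hfib : ∀ v ∈ F.image f, (F.filter (fun B => f B = v)).card ≤ n := by
    intro v hv
    rw [mem_image] at hv
    obtain ⟨β, hβ, rfl⟩ := hv
    rw [hFmem] at hβ
    rw [hn]
    apply Nat.le_floor
    refine hL₀ L hLL β ?_ ?_ _ fun B hB => ?_
    · rw [hβ.2, sub_self]
      exact dvd_zero _
    · rw [hMdef]
      apply Nat.Coprime.prod_right
      intro Q hQ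
      rw [Nat.coprime_comm, (pr_nat (hS Q hQ).1).coprime_iff_not_dvd]
      intro hd
      have h1 : Q ∣ (Int.gcd β.x β.y : ℤ) := by
        rw [← pr_cast (hS Q hQ).1]
        exact_mod_cast hd
      exact not_both (hS Q hQ).1 (hS Q hQ).2.1 (hS Q hQ).2.2 (hβ.1.ra Q hQ) (hβ.1.rb Q hQ)
        (h1.trans (Int.gcd_dvd_left ..)) (h1.trans (Int.gcd_dvd_right ..))
    · rw [mem_filter, hFmem] at hB
      obtain ⟨⟨hB1, hB2⟩, hB3⟩ := hB
      have hS' : ∀ Q ∈ S, IsPr Q := fun Q hQ => (hS Q hQ).1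
      have hQ : ∀ Q ∈ S, tmap (rd Q) B = tmap (rd Q) β := by
        intro Q hQ
        exact congrFun hB3 ⟨Q, hQ⟩
      have hco : ∀ (g : Tup ℤ → ℤ), (∀ Q ∈ S, rd Q (g B) = rd Q (g β)) → (M : ℤ) ∣ g B - g β := by
        intro g hg
        rw [hMz]
        apply dvd_of_all hS'
        intro Q hQ'
        rw [← rd_zero, map_sub, hg Q hQ', sub_self]
      refine ⟨hB1.nz, hB2, ⟨hco (fun B => B.x) fun Q h => congrArg Tup.x (hQ Q h),
        hco (fun B => B.y) fun Q h => congrArg Tup.y (hQ Q h),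
        hco (fun B => B.c) fun Q h => congrArg Tup.c (hQ Q h),
        hco (fun B => B.z) fun Q h => congrArg Tup.z (hQ Q h),
        hco (fun B => B.w) fun Q h => congrArg Tup.w (hQ Q h)⟩, ?_⟩
      obtain ⟨b1, b2, b3, b4, b5⟩ := hB1.box
      rw [hL]
      exact ⟨by exact_mod_cast b1, by exact_mod_cast b2, by exact_mod_cast b3, by exact_mod_cast b4,
        by exact_mod_cast b5⟩
  have hcard := card_le_mul_card_image F n hfib
  -- the number of the classes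
  haveI : ∀ Q : {Q // Q ∈ S}, Finite (GQ s Q.1) := fun Q => by
    haveI : Fact Q.1.natAbs.Prime := ⟨pr_nat (hS Q.1 Q.2).1⟩
    infer_instance
  let ι : (∀ Q : {Q // Q ∈ S}, GQ s Q.1) → (∀ Q : {Q // Q ∈ S}, Tup (ZMod Q.1.natAbs)) := fun g Q => (g Q).1
  have hι : Function.Injective ι := by
    intro g g' h
    funext Q
    exact Subtype.ext (congrFun h Q)
  have himg : (F.image f).card ≤ ∏ Q ∈ S, Nat.card (GQ s Q) := by
    have h1 : ((F.image f : Finset _) : Set (∀ Q : {Q // Q ∈ S}, Tup (ZMod Q.1.natAbs))) ⊆ Set.range ι := by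
      intro v hv
      rw [mem_coe, mem_image] at hv
      obtain ⟨B, hB, rfl⟩ := hv
      rw [hFmem] at hB
      refine ⟨fun Q => ⟨tmap (rd Q.1) B, ?_, ?_, two_tmap (hB.1.tt Q.1 Q.2)⟩, rfl⟩
      · rw [chA_tmap, ← sub_eq_zero, ← map_sub, rd_zero]
        exact hB.1.ra Q.1 Q.2
      · rw [chB_tmap, rd_zero]
        exact hB.1.rb Q.1 Q.2
    have h2 := Set.ncard_le_ncard h1 (Set.finite_range ι)
    rw [Set.ncard_coe_finset] at h2
    refine h2.trans (le_of_eq ?_)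
    rw [← Nat.card_coe_set_eq, Nat.card_range_of_injective hι, Nat.card_pi,
      Finset.prod_coe_sort S (fun Q => Nat.card (GQ s Q))]
  have hQQ : 2 ^ S.card * ∏ Q ∈ S, Nat.card (GQ s Q) ≤ M ^ 3 := by
    rw [hMdef, ← Finset.prod_pow, ← Finset.prod_const, ← Finset.prod_mul_distrib]
    exact Finset.prod_le_prod' fun Q hQ => card_GQ s (hS Q hQ).1 (hS Q hQ).2.1 (hS Q hQ).2.2
  have hcard2 : 2 ^ S.card * M * F.card ≤ M ^ 4 * n := by
    calc 2 ^ S.card * M * F.card ≤ 2 ^ S.card * M * (n * ∏ Q ∈ S, Nat.card (GQ s Q)) := by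
          apply Nat.mul_le_mul_left
          exact hcard.trans (Nat.mul_le_mul_left _ himg)
      _ = (2 ^ S.card * ∏ Q ∈ S, Nat.card (GQ s Q)) * (M * n) := by ring
      _ ≤ M ^ 3 * (M * n) := Nat.mul_le_mul_right _ hQQ
      _ = M ^ 4 * n := by ring
  have hnle : (n : ℝ) ≤ (K₀ / (M : ℝ) ^ 4 + 1 / (M : ℝ) ^ 4) * L ^ 3 := by
    rw [hn]
    apply Nat.floor_le
    have : 0 < L := by rw [hL]; positivity
    positivity
  have hfinal : (2 ^ S.card * M * F.card : ℝ) ≤ (((⌈K₀⌉₊ + 1) * κ ^ 3 : ℕ) : ℝ) * X ^ 3 := by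
    have h1 : (2 ^ S.card * M * F.card : ℝ) ≤ (M : ℝ) ^ 4 * n := by exact_mod_cast hcard2
    refine h1.trans ?_
    calc (M : ℝ) ^ 4 * n ≤ (M : ℝ) ^ 4 * ((K₀ / (M : ℝ) ^ 4 + 1 / (M : ℝ) ^ 4) * L ^ 3) := by gcongr
      _ = (K₀ + 1) * L ^ 3 := by field_simp
      _ ≤ ((⌈K₀⌉₊ : ℝ) + 1) * L ^ 3 := by
          have := Nat.le_ceil K₀
          have hL0 : 0 < L := by rw [hL]; positivity
          gcongr
      _ = (((⌈K₀⌉₊ + 1) * κ ^ 3 : ℕ) : ℝ) * X ^ 3 := by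
          rw [hL]
          push_cast
          ring
  have e1 : {B : Tup ℤ | Xset κ X T S s B ∧ chA B = a}.ncard = F.card := by
    rw [hF, Set.ncard_eq_toFinset_card _ hfin]
  rw [e1, ← hMz]
  exact_mod_cast hfinal

end Pool.Agent.L0h56.LR
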