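import Pool.Agent.L0h45.LR.Stm

/-!
# Project LR: PER and EQS
-/

set_option autoImplicit false
set_option linter.all false

open Finset
open scoped Classical

namespace Pool.Agent.L0h56.LR

open Pool.Agent.L0h45.LR

/-- the distance from `a / n` to the integers -/
lemma dn_ge (a : ℤ) (n : ℕ) (k : ℤ) (hk : a % n = k) (hk0 : 1 ≤ k) (hkn : k < n) :
    (min (k : ℝ) (n - k)) / n ≤ dn ((a : ℝ) / n) := by
  have hn : (0 : ℝ) < n := by
    have : 0 < (n : ℤ) := by omega
    exact_mod_cast this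
  have hn' : (n : ℝ) ≠ 0 := hn.ne'
  unfold dn
  set z := round ((a : ℝ) / n)
  have e1 : (a : ℝ) / n - z = ((a - z * n : ℤ) : ℝ) / n := by
    push_cast
    field_simp
  rw [e1, abs_div, abs_of_pos hn]
  gcongr
  obtain ⟨q, hq⟩ : ∃ q : ℤ, a - z * n = k + n * q := ⟨a / n - z, by
    have := Int.emod_add_mul_ediv a n
    rw [hk] at this
    linear_combination -this⟩
  rw [hq]
  rcases le_or_gt 0 q with h | h
  · refine (min_le_left _ _).trans ?_
    have h1 : k ≤ k + n * q := by nlinarith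
    have h2 : (k : ℝ) ≤ ((k + n * q : ℤ) : ℝ) := by exact_mod_cast h1
    exact h2.trans (le_abs_self _)
  · refine (min_le_right _ _).trans ?_
    have h1 : k + n * q ≤ k - n := by nlinarith
    have h2 : ((k + n * q : ℤ) : ℝ) ≤ (k : ℝ) - n := by exact_mod_cast h1
    refine le_trans ?_ (neg_le_abs _)
    linarith

lemma w_le (a : ℤ) (n : ℕ) (k : ℤ) (hk : a % n = k) (hk0 : 1 ≤ k) (hkn : k < n) :
    1 / (2 * dn ((a : ℝ) / n)) ≤ (n : ℝ) / 2 * (1 / (k : ℝ) + 1 / ((n : ℝ) - k)) := by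
  have hn : (0 : ℝ) < n := by
    have : 0 < (n : ℤ) := by omega
    exact_mod_cast this
  have hk1 : (1 : ℝ) ≤ k := by exact_mod_cast hk0
  have hk2 : (1 : ℝ) ≤ (n : ℝ) - k := by
    have : k + 1 ≤ n := hkn
    have h2 : (k : ℝ) + 1 ≤ n := by exact_mod_cast this
    linarith
  have h := dn_ge a n k hk hk0 hkn
  have hmin : 0 < min (k : ℝ) (n - k) := lt_min (by linarith) (by linarith)
  have h3 : 1 / (2 * dn ((a : ℝ) / n)) ≤ 1 / (2 * (min (k : ℝ) (n - k) / n)) := by
    apply one_div_le_one_div_of_le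
    · positivity
    · linarith
  refine h3.trans ?_
  have e1 : 1 / (2 * (min (k : ℝ) (n - k) / n)) = (n : ℝ) / 2 * (1 / min (k : ℝ) (n - k)) := by
    field_simp
  rw [e1]
  apply mul_le_mul_of_nonneg_left _ (by positivity)
  rcases min_choice (k : ℝ) (n - k) with h4 | h4 <;> rw [h4]
  · have : 0 ≤ 1 / ((n : ℝ) - k) := by positivity
    linarith
  · have : 0 ≤ 1 / (k : ℝ) := by positivity
    linarith

lemma sum_w (n : ℕ) (hn : 1 ≤ n) :
    ∑ k ∈ Ico 1 n, ((1 : ℝ) / (k : ℝ) + 1 / ((n : ℝ) - k)) ≤ 2 * (1 + Real.log n) := by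
  rw [sum_add_distrib]
  have e1 : ∑ k ∈ Ico 1 n, (1 : ℝ) / ((n : ℝ) - k) = ∑ k ∈ Ico 1 n, (1 : ℝ) / (k : ℝ) := by
    refine sum_nbij' (fun k => n - k) (fun k => n - k) ?_ ?_ ?_ ?_ ?_
    · intro k hk
      rw [mem_Ico] at hk ⊢
      omega
    · intro k hk
      rw [mem_Ico] at hk ⊢
      omega
    · intro k hk
      rw [mem_Ico] at hk
      omega
    · intro k hk
      rw [mem_Ico] at hk
      omega
    · intro k hk
      rw [mem_Ico] at hk
      rw [Nat.cast_sub hk.2.le]
  rw [e1]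
  have h1 := harmonic_le_one_add_log n
  have h2 : ∑ k ∈ Ico 1 n, (1 : ℝ) / (k : ℝ) ≤ ((harmonic n : ℚ) : ℝ) := by
    rw [harmonic_eq_sum_Icc]
    push_cast
    have : Ico 1 n ⊆ Icc 1 n := fun k hk => by
      rw [mem_Ico] at hk
      rw [mem_Icc]
      omega
    refine le_trans (sum_le_sum_of_subset_of_nonneg this fun k _ _ => by positivity) (le_of_eq ?_)
    exact sum_congr rfl fun k _ => one_div _
  linarith

lemma count_le (n d : ℕ) (hn : 1 ≤ n) (m v k : ℤ) (hm : IsCoprime (n : ℤ) m) :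
    ((Ico v (v + ((d * n : ℕ) : ℤ))).filter (fun j => (m * j) % n = k)).card ≤ d := by
  rcases ((Ico v (v + ((d * n : ℕ) : ℤ))).filter (fun j => (m * j) % n = k)).eq_empty_or_nonempty with h | ⟨j₀, h₀⟩
  · rw [h]
    simp
  · have hsub : (Ico v (v + ((d * n : ℕ) : ℤ))).filter (fun j => (m * j) % n = k) ⊆
        (Ico v (v + ((d * n : ℕ) : ℤ))).filter (fun j => j ≡ j₀ [ZMOD n]) := by
      intro j hj
      rw [mem_filter] at hj h₀ ⊢
      refine ⟨hj.1, ?_⟩
      have h1 : (m * j) % n = (m * j₀) % n := by rw [hj.2, h₀.2]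
      have h2 : (n : ℤ) ∣ m * (j₀ - j) := by
        have := Int.ModEq.dvd h1
        rw [mul_sub]
        exact this
      exact (Int.modEq_iff_dvd).2 (hm.dvd_of_dvd_mul_left h2)
    refine (card_le_card hsub).trans ?_
    have hn0 : (0 : ℤ) < n := by exact_mod_cast hn
    have h3 := Int.Ico_filter_modEq_card v (v + ((d * n : ℕ) : ℤ)) hn0 j₀
    have hq : ((n : ℤ) : ℚ) ≠ 0 := by exact_mod_cast hn0.ne'
    have e1 : (((v + ((d * n : ℕ) : ℤ) : ℤ) : ℚ) - j₀) / ((n : ℤ) : ℚ) = ((v : ℚ) - j₀) / ((n : ℤ) : ℚ) + ((d : ℤ) : ℚ) := by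
      push_cast at hq ⊢
      field_simp
      ring
    have h4 : (((Ico v (v + ((d * n : ℕ) : ℤ))).filter (fun j => j ≡ j₀ [ZMOD n])).card : ℤ) ≤ d := by
      refine (le_of_eq h3).trans ?_
      rw [e1, Int.ceil_add_intCast]
      simp
    exact_mod_cast h4

theorem t_PER : S_PER := by
  intro x m v hx
  have hx0 : (0 : ℤ) < x := by exact_mod_cast hx
  set g : ℕ := Int.gcd m x with hg
  have hg0 : 0 < g := Int.gcd_pos_of_ne_zero_right _ hx0.ne'
  obtain ⟨m', hm'⟩ : (g : ℤ) ∣ m := Int.gcd_dvd_left ..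
  obtain ⟨n', hn'⟩ : (g : ℤ) ∣ x := Int.gcd_dvd_right ..
  have hgz : (0 : ℤ) < g := by exact_mod_cast hg0
  have hn0 : 0 < n' := by
    rw [hn'] at hx0
    exact pos_of_mul_pos_right hx0 hgz.le |> fun h => h
  obtain ⟨n, rfl⟩ : ∃ n : ℕ, n' = n := ⟨n'.toNat, (Int.toNat_of_nonneg hn0.le).symm⟩
  have hn1 : 1 ≤ n := by exact_mod_cast hn0
  have hcop : IsCoprime (n : ℤ) m' := by
    have h1 : Int.gcd m x = g * Int.gcd m' n := by
      conv_lhs => rw [hm', hn']
      rw [Int.gcd_mul_left]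
      simp
    rw [← hg] at h1
    have h2 : Int.gcd m' n = 1 := by
      have : g * 1 = g * Int.gcd m' n := by rw [mul_one]; exact h1
      exact (Nat.eq_of_mul_eq_mul_left hg0 this).symm
    exact (Int.isCoprime_iff_gcd_eq_one.2 h2).symm
  have hxn : x = g * n := by exact_mod_cast hn'
  have hnr : (0 : ℝ) < n := by exact_mod_cast hn0
  have hgr : (0 : ℝ) < g := by exact_mod_cast hg0
  -- the terms
  set T := (Ico v (v + x)).filter (fun j => ¬ (x : ℤ) ∣ m * j) with hT
  have hmem : ∀ j ∈ T, ((m' * j) % n).toNat ∈ Ico 1 n := by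
    intro j hj
    rw [hT, mem_filter] at hj
    have h1 : (m' * j) % n ≠ 0 := by
      intro h
      apply hj.2
      have : (n : ℤ) ∣ m' * j := Int.dvd_of_emod_eq_zero h
      rw [hn', hm', mul_assoc]
      exact mul_dvd_mul_left _ this
    have h2 := Int.emod_nonneg (m' * j) hn0.ne'
    have h3 := Int.emod_lt_of_pos (m' * j) hn0
    rw [mem_Ico]
    omega
  rw [← sum_fiberwise_of_maps_to hmem]
  have hfib : ∀ k ∈ Ico 1 n, ∑ j ∈ T.filter (fun j => ((m' * j) % n).toNat = k), 1 / (2 * dn (((m * j : ℤ) : ℝ) / x)) ≤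
      g * ((n : ℝ) / 2 * (1 / (k : ℝ) + 1 / ((n : ℝ) - k))) := by
    intro k hk
    rw [mem_Ico] at hk
    have hc : (T.filter (fun j => ((m' * j) % n).toNat = k)).card ≤ g := by
      refine le_trans (card_le_card ?_) (count_le n g hn1 m' v k hcop)
      intro j hj
      rw [mem_filter] at hj ⊢
      have hj1 := hj.1
      rw [hT, mem_filter] at hj1
      have h2 := Int.emod_nonneg (m' * j) hn0.ne'
      refine ⟨?_, by omega⟩
      have e : ((g * n : ℕ) : ℤ) = x := by rw [hxn]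
      rw [e]
      exact hj1.1
    have hpos : 0 ≤ (n : ℝ) / 2 * (1 / (k : ℝ) + 1 / ((n : ℝ) - k)) := by
      have : (0 : ℝ) < (n : ℝ) - k := by
        have : (k : ℝ) < n := by exact_mod_cast hk.2
        linarith
      positivity
    calc ∑ j ∈ T.filter (fun j => ((m' * j) % n).toNat = k), 1 / (2 * dn (((m * j : ℤ) : ℝ) / x))
        ≤ ∑ j ∈ T.filter (fun j => ((m' * j) % n).toNat = k), (n : ℝ) / 2 * (1 / (k : ℝ) + 1 / ((n : ℝ) - k)) := by
          apply sum_le_sum
          intro j hj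
          rw [mem_filter] at hj
          have h2 := Int.emod_nonneg (m' * j) hn0.ne'
          have h4 : (m' * j) % n = (k : ℤ) := by omega
          have e : (((m * j : ℤ) : ℝ) / x) = ((m' * j : ℤ) : ℝ) / n := by
            rw [hm', hxn]
            push_cast
            field_simp
          rw [e]
          have := w_le (m' * j) n (k : ℤ) h4 (by omega) (by omega)
          rw [Int.cast_natCast] at this
          exact this
      _ = ((T.filter (fun j => ((m' * j) % n).toNat = k)).card : ℝ) * ((n : ℝ) / 2 * (1 / (k : ℝ) + 1 / ((n : ℝ) - k))) := by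
          rw [sum_const, nsmul_eq_mul]
      _ ≤ g * ((n : ℝ) / 2 * (1 / (k : ℝ) + 1 / ((n : ℝ) - k))) := by
          apply mul_le_mul_of_nonneg_right _ hpos
          exact_mod_cast hc
  refine (sum_le_sum hfib).trans ?_
  rw [← mul_sum, ← mul_sum]
  have h5 := sum_w n hn1
  have h6 : Real.log n ≤ Real.log x := by
    apply Real.log_le_log hnr
    rw [hxn]
    push_cast
    have : (1 : ℝ) ≤ g := by exact_mod_cast hg0
    nlinarith
  have h7 : (x : ℝ) = g * n := by rw [hxn]; push_cast; ring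
  rw [h7] at h6 ⊢
  have h8 : (g : ℝ) * ((n : ℝ) / 2 * ∑ k ∈ Ico 1 n, (1 / (k : ℝ) + 1 / ((n : ℝ) - k))) ≤
      (g : ℝ) * ((n : ℝ) / 2 * (2 * (1 + Real.log n))) := by gcongr
  refine h8.trans ?_
  have h9 : (g : ℝ) * ((n : ℝ) / 2 * (2 * (1 + Real.log n))) = g * n * (1 + Real.log n) := by ring
  rw [h9]
  gcongr

theorem t_EQS (hP : S_PER) : S_EQS := by
  intro x k hx
  have hx0 : 0 < x := hx
  set T := (range x).filter (fun h : ℕ => ¬ (x : ℤ) ∣ h * k) with hT
  have hmem : ∀ h ∈ T, Nat.gcd h x ∈ x.divisors := by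
    intro h _
    rw [Nat.mem_divisors]
    exact ⟨Nat.gcd_dvd_right _ _, by omega⟩
  rw [← sum_fiberwise_of_maps_to hmem]
  have hlog : 0 ≤ Real.log x := Real.log_nonneg (by exact_mod_cast hx)
  have hfib : ∀ d ∈ x.divisors, ∑ h ∈ T.filter (fun h => Nat.gcd h x = d),
      √(Nat.gcd h x : ℝ) / (2 * dn (((h * k : ℤ) : ℝ) / x)) ≤ x * (1 + Real.log x) := by
    intro d hd
    rw [Nat.mem_divisors] at hd
    obtain ⟨⟨n, hn⟩, _⟩ := hd
    have hd0 : 0 < d := Nat.pos_of_ne_zero (by rintro rfl; omega)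
    have hn0 : 0 < n := Nat.pos_of_ne_zero (by rintro rfl; omega)
    have hdr : (0 : ℝ) < d := by exact_mod_cast hd0
    have hdr1 : (1 : ℝ) ≤ d := by exact_mod_cast hd0
    have hnr : (0 : ℝ) < n := by exact_mod_cast hn0
    have key := hP n k 0 hn0
    have h1 : ∑ h ∈ T.filter (fun h => Nat.gcd h x = d), √(Nat.gcd h x : ℝ) / (2 * dn (((h * k : ℤ) : ℝ) / x)) =
        √(d : ℝ) * ∑ h ∈ T.filter (fun h => Nat.gcd h x = d), 1 / (2 * dn (((h * k : ℤ) : ℝ) / x)) := by
      rw [mul_sum]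
      apply sum_congr rfl
      intro h hh
      rw [mem_filter] at hh
      rw [hh.2]
      ring
    have h2 : ∑ h ∈ T.filter (fun h => Nat.gcd h x = d), 1 / (2 * dn (((h * k : ℤ) : ℝ) / x)) ≤
        ∑ j ∈ (Ico (0 : ℤ) (0 + n)).filter (fun j => ¬ (n : ℤ) ∣ k * j), 1 / (2 * dn (((k * j : ℤ) : ℝ) / n)) := by
      have hinj : Set.InjOn (fun h : ℕ => ((h / d : ℕ) : ℤ)) (T.filter (fun h => Nat.gcd h x = d)) := by
        intro a ha b hb hab
        rw [mem_coe, mem_filter] at ha hb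
        simp only [Nat.cast_inj] at hab
        have e1 : d ∣ a := ha.2 ▸ Nat.gcd_dvd_left _ _
        have e2 : d ∣ b := hb.2 ▸ Nat.gcd_dvd_left _ _
        rw [← Nat.div_mul_cancel e1, ← Nat.div_mul_cancel e2, hab]
      have hval : ∀ h ∈ T.filter (fun h => Nat.gcd h x = d), (((h * k : ℤ) : ℝ) / x) =
          ((k * ((h / d : ℕ) : ℤ) : ℤ) : ℝ) / n := by
        intro h hh
        rw [mem_filter] at hh
        obtain ⟨c, hc⟩ : d ∣ h := hh.2 ▸ Nat.gcd_dvd_left _ _
        rw [hc, Nat.mul_div_cancel_left c hd0, hn]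
        push_cast
        field_simp
      rw [sum_congr rfl fun h hh => by rw [hval h hh],
        ← sum_image (f := fun j : ℤ => 1 / (2 * dn (((k * j : ℤ) : ℝ) / n))) hinj]
      apply sum_le_sum_of_subset_of_nonneg
      · intro j hj
        rw [mem_image] at hj
        obtain ⟨h, hh, rfl⟩ := hj
        rw [mem_filter, hT, mem_filter, mem_range] at hh
        obtain ⟨⟨hh1, hh2⟩, hh3⟩ := hh
        obtain ⟨c, hc⟩ : d ∣ h := hh3 ▸ Nat.gcd_dvd_left _ _
        have hc2 : h / d = c := by rw [hc, Nat.mul_div_cancel_left c hd0]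
        rw [mem_filter, mem_Ico, hc2]
        refine ⟨⟨by positivity, ?_⟩, ?_⟩
        · rw [zero_add]
          rw [hc, hn] at hh1
          exact_mod_cast Nat.lt_of_mul_lt_mul_left hh1
        · intro h4
          apply hh2
          rw [hc, hn]
          push_cast
          rw [mul_assoc]
          apply mul_dvd_mul_left
          rw [mul_comm]
          exact h4
      · intro j _ _
        have : 0 ≤ dn (((k * j : ℤ) : ℝ) / n) := abs_nonneg _
        positivity
    rw [h1]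
    have h3 : Real.log n ≤ Real.log x := by
      apply Real.log_le_log hnr
      rw [hn]
      push_cast
      nlinarith
    have h4 : √(d : ℝ) ≤ d := by
      rw [Real.sqrt_le_left (by linarith)]
      nlinarith
    calc √(d : ℝ) * ∑ h ∈ T.filter (fun h => Nat.gcd h x = d), 1 / (2 * dn (((h * k : ℤ) : ℝ) / x))
        ≤ d * (n * (1 + Real.log n)) := by
          apply mul_le_mul h4 (h2.trans key) _ hdr.le
          apply sum_nonneg
          intro j _
          have : 0 ≤ dn (((j * k : ℤ) : ℝ) / x) := abs_nonneg _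
          positivity
      _ = x * (1 + Real.log n) := by rw [hn]; push_cast; ring
      _ ≤ x * (1 + Real.log x) := by gcongr
  refine (sum_le_sum hfib).trans ?_
  rw [sum_const, nsmul_eq_mul]
  unfold tn
  apply le_of_eq
  ring

end Pool.Agent.L0h56.LR
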